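import Pool.Agent.K3h74.Torus.Total

/-!
# Isometric embedding of perturbed metrics on an embedded torus

The standard torus of revolution has smooth metrics, arbitrarily close to its metric in the `C^∞`
topology, which have no isometric immersion of class `C³` in `ℝ³`; in particular no smooth isometric
embedding.

The torus is `T² = ℝ² / (2πℤ)²`; tensors and maps on `T²` are given by their lifts to `ℝ²`.

Proof.  For an isometric immersion `f` of class `C³` of `T²` with a metric `ds² + r(s)² dθ²` let `n` be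
the unit normal.  The polar map `(s, θ, ρ) ↦ ρ n(s, θ)` has the Jacobian `ρ² |r''(s)|` (Gauss equation
and theorema egregium).  Every unit vector `ν` is, up to the sign, the normal at a point where the
function `⟨f, ν⟩` is maximal; there the curvature is nonnegative.  So the unit ball is covered by the
images of two disjoint subsets of the domain of nonnegative curvature, and
`4π/3 ≤ (2π/3) ∫ (-r'')⁺ ds`.  For `r(s) = 2 + a cos s` the integral is `2a`, so `a ≥ 1`; the torus of
revolution has `a = 1`.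
-/

set_option autoImplicit false

open MeasureTheory Set Filter Topology
open scoped RealInnerProductSpace ContDiff

namespace Pool.Agent.Results.MP_665542_gt.TorusOfRevolution

/-- A symmetric tensor `E dx² + 2 F dx dy + G dy²` on the torus `T² = ℝ² / (2πℤ)²`, given by its lift
to `ℝ²`. -/
structure Tensor where
  /-- the coefficient of `dx²` -/
  E : ℝ × ℝ → ℝ
  /-- the coefficient of `2 dx dy` -/
  F : ℝ × ℝ → ℝ
  /-- the coefficient of `dy²` -/
  G : ℝ × ℝ → ℝ

/-- The value of the tensor at the tangent vectors `u` and `v` at the point `p`. -/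
def Tensor.form (g : Tensor) (p u v : ℝ × ℝ) : ℝ :=
  g.E p * (u.1 * v.1) + g.F p * (u.1 * v.2 + u.2 * v.1) + g.G p * (u.2 * v.2)

/-- A function on `ℝ²` which is the lift of a function on `T² = ℝ² / (2πℤ)²`. -/
def IsPeriodic {X : Type*} (h : ℝ × ℝ → X) : Prop :=
  ∀ (p : ℝ × ℝ) (k l : ℤ), h (p.1 + k * (2 * Real.pi), p.2 + l * (2 * Real.pi)) = h p

/-- A Riemannian metric of class `C^n` on the torus `T²`. -/
structure IsMetric (n : WithTop ℕ∞) (g : Tensor) : Prop where
  smooth : ContDiff ℝ n g.E ∧ ContDiff ℝ n g.F ∧ ContDiff ℝ n g.G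
  periodic : IsPeriodic g.E ∧ IsPeriodic g.F ∧ IsPeriodic g.G
  pos : ∀ p u, u ≠ 0 → 0 < g.form p u u

/-- An isometric immersion of class `C^n` of the torus `T²` with the metric `g` in `ℝ³`, given by its
lift to `ℝ²`. -/
structure IsIsometricImmersion (n : WithTop ℕ∞) (g : Tensor)
    (f : ℝ × ℝ → EuclideanSpace ℝ (Fin 3)) : Prop where
  smooth : ContDiff ℝ n f
  periodic : IsPeriodic f
  isometric : ∀ p u v, ⟪fderiv ℝ f p u, fderiv ℝ f p v⟫ = g.form p u v

/-- An isometric embedding: an isometric immersion which is injective on `T²`. -/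
structure IsIsometricEmbedding (n : WithTop ℕ∞) (g : Tensor)
    (f : ℝ × ℝ → EuclideanSpace ℝ (Fin 3)) : Prop extends IsIsometricImmersion n g f where
  injective : ∀ p q, f p = f q →
    ∃ k l : ℤ, q = (p.1 + k * (2 * Real.pi), p.2 + l * (2 * Real.pi))

/-! ### The metrics -/

/-- the metric `ds² + (2 + a cos s)² dθ²` -/
noncomputable def gm (a : ℝ) : Tensor where
  E := fun _ => 1
  F := fun _ => 0
  G := fun p => (2 + a * Real.cos p.1) ^ 2

lemma gm_form (a : ℝ) (p u v : ℝ × ℝ) :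
    (gm a).form p u v = u.1 * v.1 + (2 + a * Real.cos p.1) ^ 2 * (u.2 * v.2) := by
  simp [gm, Tensor.form]

lemma rad_pos {a : ℝ} (h0 : 0 ≤ a) (h1 : a ≤ 1) (s : ℝ) : 0 < 2 + a * Real.cos s := by
  have := Real.neg_one_le_cos s
  nlinarith

lemma gm_metric {a : ℝ} (h0 : 0 ≤ a) (h1 : a ≤ 1) : IsMetric ω (gm a) where
  smooth := ⟨contDiff_const, contDiff_const,
    (contDiff_const.add (contDiff_const.mul (Real.contDiff_cos.comp contDiff_fst))).pow 2⟩
  pos := by
    intro p u hu
    rw [gm_form]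
    have h := rad_pos h0 h1 p.1
    have h2 : 0 < (2 + a * Real.cos p.1) ^ 2 := by positivity
    rcases eq_or_ne u.1 0 with h3 | h3
    · have h4 : u.2 ≠ 0 := by
        intro h4
        exact hu (Prod.ext h3 h4)
      have : 0 < u.2 * u.2 := mul_self_pos.2 h4
      rw [h3]
      simp only [mul_zero, zero_add]
      exact mul_pos h2 this
    · have : 0 < u.1 * u.1 := mul_self_pos.2 h3
      have : 0 ≤ (2 + a * Real.cos p.1) ^ 2 * (u.2 * u.2) :=
        mul_nonneg h2.le (mul_self_nonneg _)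
      linarith
  periodic := by
    refine ⟨fun p k l => rfl, fun p k l => rfl, fun p k l => ?_⟩
    simp only [gm, Real.cos_add_int_mul_two_pi]

/-! ### The torus of revolution -/

/-- the torus of revolution -/
noncomputable def f₀ (p : ℝ × ℝ) : EuclideanSpace ℝ (Fin 3) :=
  !₂[(2 + Real.cos p.1) * Real.cos p.2, (2 + Real.cos p.1) * Real.sin p.2, Real.sin p.1]

lemma f₀_fderiv (p u : ℝ × ℝ) : fderiv ℝ f₀ p u =
    !₂[- Real.sin p.1 * u.1 * Real.cos p.2 - (2 + Real.cos p.1) * Real.sin p.2 * u.2,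
      - Real.sin p.1 * u.1 * Real.sin p.2 + (2 + Real.cos p.1) * Real.cos p.2 * u.2,
      Real.cos p.1 * u.1] := by
  have hx : HasFDerivAt (fun q : ℝ × ℝ => q.1) (ContinuousLinearMap.fst ℝ ℝ ℝ) p := hasFDerivAt_fst
  have hy : HasFDerivAt (fun q : ℝ × ℝ => q.2) (ContinuousLinearMap.snd ℝ ℝ ℝ) p := hasFDerivAt_snd
  have hr : HasFDerivAt (fun q : ℝ × ℝ => 2 + Real.cos q.1) _ p := (hx.cos).const_add 2
  have h0 := hr.fun_mul hy.cos
  have h1 := hr.fun_mul hy.sin
  have h2 := hx.sin
  have hd : DifferentiableAt ℝ f₀ p := by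
    rw [differentiableAt_euclidean]
    intro i
    fin_cases i
    · exact h0.differentiableAt
    · exact h1.differentiableAt
    · exact h2.differentiableAt
  have hcomp : ∀ i : Fin 3, (fderiv ℝ f₀ p u) i = fderiv ℝ (fun q => f₀ q i) p u := by
    intro i
    have := ((EuclideanSpace.proj (𝕜 := ℝ) i : EuclideanSpace ℝ (Fin 3) →L[ℝ] ℝ).hasFDerivAt.comp p
      hd.hasFDerivAt).fderiv
    have e : (⇑(EuclideanSpace.proj (𝕜 := ℝ) i : EuclideanSpace ℝ (Fin 3) →L[ℝ] ℝ) ∘ f₀) =
      fun q => f₀ q i := rfl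
    rw [e] at this
    rw [this]
    rfl
  ext i
  rw [hcomp]
  fin_cases i
  · change fderiv ℝ (fun q : ℝ × ℝ => (2 + Real.cos q.1) * Real.cos q.2) p u = _
    rw [h0.fderiv]
    simp
    ring
  · change fderiv ℝ (fun q : ℝ × ℝ => (2 + Real.cos q.1) * Real.sin q.2) p u = _
    rw [h1.fderiv]
    simp
    ring
  · change fderiv ℝ (fun q : ℝ × ℝ => Real.sin q.1) p u = _
    rw [h2.fderiv]
    simp

lemma f₀_embedding : IsIsometricEmbedding ω (gm 1) f₀ where
  smooth := by
    rw [contDiff_euclidean]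
    have hx : ContDiff ℝ ω (fun q : ℝ × ℝ => q.1) := contDiff_fst
    have hy : ContDiff ℝ ω (fun q : ℝ × ℝ => q.2) := contDiff_snd
    have hr : ContDiff ℝ ω (fun q : ℝ × ℝ => 2 + Real.cos q.1) :=
      contDiff_const.add (Real.contDiff_cos.comp hx)
    intro i
    fin_cases i
    · exact hr.mul (Real.contDiff_cos.comp hy)
    · exact hr.mul (Real.contDiff_sin.comp hy)
    · exact Real.contDiff_sin.comp hx
  periodic := by
    intro p k l
    unfold f₀
    simp only [Real.cos_add_int_mul_two_pi, Real.sin_add_int_mul_two_pi]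
  isometric := by
    intro p u v
    rw [f₀_fderiv, f₀_fderiv, gm_form, K3h74.Torus.inner3]
    have h1 := Real.sin_sq_add_cos_sq p.1
    have h2 := Real.sin_sq_add_cos_sq p.2
    simp only [Matrix.cons_val_zero, Matrix.cons_val_one, Matrix.cons_val]
    linear_combination (u.1 * v.1 * Real.sin p.1 ^ 2 +
      (2 + Real.cos p.1) ^ 2 * u.2 * v.2) * h2 + u.1 * v.1 * h1
  injective := by
    intro p q h
    have e0 : (2 + Real.cos p.1) * Real.cos p.2 = (2 + Real.cos q.1) * Real.cos q.2 :=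
      congrArg (fun x : EuclideanSpace ℝ (Fin 3) => x 0) h
    have e1 : (2 + Real.cos p.1) * Real.sin p.2 = (2 + Real.cos q.1) * Real.sin q.2 :=
      congrArg (fun x : EuclideanSpace ℝ (Fin 3) => x 1) h
    have e2 : Real.sin p.1 = Real.sin q.1 :=
      congrArg (fun x : EuclideanSpace ℝ (Fin 3) => x 2) h
    have hp : 0 < 2 + Real.cos p.1 := by linarith [Real.neg_one_le_cos p.1]
    have hq : 0 < 2 + Real.cos q.1 := by linarith [Real.neg_one_le_cos q.1]
    have h1 := Real.sin_sq_add_cos_sq p.2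
    have h2 := Real.sin_sq_add_cos_sq q.2
    have e3 : (2 + Real.cos p.1) ^ 2 = (2 + Real.cos q.1) ^ 2 := by
      have : (2 + Real.cos p.1) ^ 2 * (Real.sin p.2 ^ 2 + Real.cos p.2 ^ 2) =
          (2 + Real.cos q.1) ^ 2 * (Real.sin q.2 ^ 2 + Real.cos q.2 ^ 2) := by
        have a0 : ((2 + Real.cos p.1) * Real.cos p.2) ^ 2 = ((2 + Real.cos q.1) * Real.cos q.2) ^ 2 := by
          rw [e0]
        have a1 : ((2 + Real.cos p.1) * Real.sin p.2) ^ 2 = ((2 + Real.cos q.1) * Real.sin q.2) ^ 2 := by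
          rw [e1]
        linear_combination a0 + a1
      rwa [h1, h2, mul_one, mul_one] at this
    have e4 : Real.cos p.1 = Real.cos q.1 := by
      have := (pow_left_inj₀ hp.le hq.le two_ne_zero).1 e3
      linarith
    have e5 : Real.cos p.2 = Real.cos q.2 := by
      rw [e4] at e0
      exact mul_left_cancel₀ hq.ne' e0
    have e6 : Real.sin p.2 = Real.sin q.2 := by
      rw [e4] at e1
      exact mul_left_cancel₀ hq.ne' e1
    have a1 : ((q.1 : ℝ) : Real.Angle) = (p.1 : ℝ) := Real.Angle.cos_sin_inj e4.symm e2.symm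
    have a2 : ((q.2 : ℝ) : Real.Angle) = (p.2 : ℝ) := Real.Angle.cos_sin_inj e5.symm e6.symm
    rw [Real.Angle.angle_eq_iff_two_pi_dvd_sub] at a1 a2
    obtain ⟨k, hk⟩ := a1
    obtain ⟨l, hl⟩ := a2
    exact ⟨k, l, Prod.ext (by change q.1 = p.1 + k * (2 * Real.pi); linarith)
      (by change q.2 = p.2 + l * (2 * Real.pi); linarith)⟩

/-! ### The perturbed metrics -/

/-- the perturbed metrics have no isometric immersion -/
lemma no_immersion {a : ℝ} (h0 : 0 ≤ a) (h1 : a < 1) :
    ¬ ∃ f, IsIsometricImmersion 3 (gm a) f := by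
  rintro ⟨f, hf⟩
  have I : K3h74.Torus.Imm (fun s => 2 + a * Real.cos s) (fun s => - (a * Real.sin s))
      (fun s => - (a * Real.cos s)) f :=
    { smooth := hf.smooth
      pos := fun s => rad_pos h0 h1.le s
      der := fun s => by
        simpa using ((Real.hasDerivAt_cos s).const_mul a).const_add 2
      der' := fun s => by
        simpa using ((Real.hasDerivAt_sin s).const_mul a).fun_neg
      metric := fun p u v => by rw [hf.isometric, gm_form] }
  have h2 := I.two_le hf.periodic (by fun_prop)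
  have h3 : ∫ s in (0 : ℝ)..(2 * Real.pi), max (- - (a * Real.cos s)) 0 = 2 * a := by
    simp only [neg_neg]
    have hpi := Real.pi_pos
    have hint : ∀ x y : ℝ, IntervalIntegrable (fun s => max (a * Real.cos s) 0) volume x y :=
      fun x y => (Continuous.intervalIntegrable (by fun_prop) x y)
    have hp : ∀ x y : ℝ, x ≤ y → (∀ s ∈ Icc x y, 0 ≤ Real.cos s) →
        ∫ s in x..y, max (a * Real.cos s) 0 = a * (Real.sin y - Real.sin x) := by
      intro x y hxy hc
      rw [← integral_cos, ← intervalIntegral.integral_const_mul]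
      apply intervalIntegral.integral_congr
      intro s hs
      rw [uIcc_of_le hxy] at hs
      exact max_eq_left (mul_nonneg h0 (hc s hs))
    have hn : ∀ x y : ℝ, x ≤ y → (∀ s ∈ Icc x y, Real.cos s ≤ 0) →
        ∫ s in x..y, max (a * Real.cos s) 0 = 0 := by
      intro x y hxy hc
      have e : ∫ s in x..y, max (a * Real.cos s) 0 = ∫ s in x..y, (0 : ℝ) := by
        apply intervalIntegral.integral_congr
        intro s hs
        rw [uIcc_of_le hxy] at hs
        exact max_eq_right (mul_nonpos_of_nonneg_of_nonpos h0 (hc s hs))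
      rw [e, intervalIntegral.integral_zero]
    rw [← intervalIntegral.integral_add_adjacent_intervals (hint 0 (Real.pi / 2))
      (hint (Real.pi / 2) (2 * Real.pi)),
      ← intervalIntegral.integral_add_adjacent_intervals (hint (Real.pi / 2) (3 * Real.pi / 2))
      (hint (3 * Real.pi / 2) (2 * Real.pi)),
      hp 0 (Real.pi / 2) (by linarith) (fun s hs => Real.cos_nonneg_of_mem_Icc
        ⟨by linarith [hs.1], hs.2⟩),
      hn (Real.pi / 2) (3 * Real.pi / 2) (by linarith) (fun s hs =>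
        Real.cos_nonpos_of_pi_div_two_le_of_le hs.1 (by linarith [hs.2])),
      hp (3 * Real.pi / 2) (2 * Real.pi) (by linarith) (fun s hs => by
        have : Real.cos s = Real.cos (s - 2 * Real.pi) := (Real.cos_sub_two_pi s).symm
        rw [this]
        exact Real.cos_nonneg_of_mem_Icc ⟨by linarith [hs.1], by linarith [hs.2]⟩)]
    have e1 : Real.sin (3 * Real.pi / 2) = -1 := by
      have : 3 * Real.pi / 2 = Real.pi / 2 + Real.pi := by ring
      rw [this, Real.sin_add_pi, Real.sin_pi_div_two]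
    rw [e1, Real.sin_two_pi, Real.sin_pi_div_two, Real.sin_zero]
    ring
  rw [h3] at h2
  linarith

lemma periodic_bounded {X : Type*} [NormedAddCommGroup X] [NormedSpace ℝ X] {H : ℝ × ℝ → X}
    (hH : ContDiff ℝ ∞ H) (hper : K3h74.Torus.Periodic2 H) (j : ℕ) :
    ∃ C : ℝ, 0 ≤ C ∧ ∀ p, ‖iteratedFDeriv ℝ j H p‖ ≤ C := by
  have hc : Continuous fun p => ‖iteratedFDeriv ℝ j H p‖ :=
    (hH.continuous_iteratedFDeriv (by exact_mod_cast le_top)).norm
  have hper' : K3h74.Torus.Periodic2 (iteratedFDeriv ℝ j H) := by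
    intro p m n
    have e : (fun q : ℝ × ℝ => H (q + (m * (2 * Real.pi), n * (2 * Real.pi)))) = H := by
      funext q
      exact hper q m n
    have := iteratedFDeriv_comp_add_right (𝕜 := ℝ) (f := H) j
      ((m * (2 * Real.pi), n * (2 * Real.pi)) : ℝ × ℝ) p
    rw [e] at this
    exact this.symm
  obtain ⟨q, -, hq⟩ := (isCompact_Icc (a := ((0 : ℝ), (0 : ℝ)))
    (b := (2 * Real.pi, 2 * Real.pi))).exists_isMaxOn
    ⟨(0, 0), by simp [Real.pi_pos.le]⟩ hc.continuousOn
  refine ⟨_, norm_nonneg (iteratedFDeriv ℝ j H q), fun p => ?_⟩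
  obtain ⟨p', h1, h2, h3⟩ := hper'.reduce p
  rw [← h3]
  exact hq (show p' ∈ Icc _ _ from ⟨⟨h1.1, h2.1⟩, ⟨h1.2.le, h2.2.le⟩⟩)

/-- the metrics are close in the `C^∞` topology -/
lemma close (j : ℕ) : ∃ C : ℝ, 0 ≤ C ∧ ∀ t : ℝ, 0 ≤ t → t ≤ 1 → ∀ p,
    ‖iteratedFDeriv ℝ j (fun q => (gm (1 - t)).G q - (gm 1).G q) p‖ ≤ C * t := by
  let H₁ : ℝ × ℝ → ℝ := fun p => -(2 * Real.cos p.1 * (2 + Real.cos p.1))
  let H₂ : ℝ × ℝ → ℝ := fun p => Real.cos p.1 ^ 2
  have hcos : ContDiff ℝ ∞ (fun q : ℝ × ℝ => Real.cos q.1) := Real.contDiff_cos.comp contDiff_fst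
  have c1 : ContDiff ℝ ∞ H₁ := ((contDiff_const.mul hcos).mul (contDiff_const.add hcos)).neg
  have c2 : ContDiff ℝ ∞ H₂ := hcos.pow 2
  have p1 : K3h74.Torus.Periodic2 H₁ := by
    intro p m n
    simp only [H₁, Real.cos_add_int_mul_two_pi]
  have p2 : K3h74.Torus.Periodic2 H₂ := by
    intro p m n
    simp only [H₂, Real.cos_add_int_mul_two_pi]
  obtain ⟨C₁, hC₁, h1⟩ := periodic_bounded c1 p1 j
  obtain ⟨C₂, hC₂, h2⟩ := periodic_bounded c2 p2 j
  refine ⟨C₁ + C₂, by positivity, fun t ht0 ht1 p => ?_⟩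
  have e : (fun q => (gm (1 - t)).G q - (gm 1).G q) =
      (fun q => t • H₁ q) + (fun q => t ^ 2 • H₂ q) := by
    funext q
    simp only [gm, H₁, H₂, Pi.add_apply, smul_eq_mul]
    ring
  have d1 : ContDiffAt ℝ j H₁ p := (c1.of_le (by exact_mod_cast le_top)).contDiffAt
  have d2 : ContDiffAt ℝ j H₂ p := (c2.of_le (by exact_mod_cast le_top)).contDiffAt
  rw [e, iteratedFDeriv_add_apply (d1.const_smul t) (d2.const_smul (t ^ 2)),
    iteratedFDeriv_const_smul_apply' d1, iteratedFDeriv_const_smul_apply' d2]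
  refine (norm_add_le _ _).trans ?_
  rw [norm_smul, norm_smul, Real.norm_of_nonneg ht0, Real.norm_of_nonneg (sq_nonneg t)]
  have h3 : t ^ 2 ≤ t := by nlinarith
  have h4 := h1 p
  have h5 := h2 p
  have h6 : t * ‖iteratedFDeriv ℝ j H₁ p‖ ≤ t * C₁ := mul_le_mul_of_nonneg_left h4 ht0
  have h7 : t ^ 2 * ‖iteratedFDeriv ℝ j H₂ p‖ ≤ t * C₂ :=
    mul_le_mul h3 h5 (norm_nonneg _) ht0
  linarith

lemma close0 {t : ℝ} (h0 : 0 ≤ t) (h1 : t ≤ 1) (p u v : ℝ × ℝ) :
    |(gm (1 - t)).form p u v - (gm 1).form p u v| ≤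
      9 * t * (Real.sqrt ((gm 1).form p u u) * Real.sqrt ((gm 1).form p v v)) := by
  set c := Real.cos p.1
  have hc1 : -1 ≤ c := Real.neg_one_le_cos _
  have hc2 : c ≤ 1 := Real.cos_le_one _
  have key : ∀ w : ℝ × ℝ, |w.2| ≤ Real.sqrt ((gm 1).form p w w) := by
    intro w
    rw [← Real.sqrt_sq_eq_abs]
    apply Real.sqrt_le_sqrt
    rw [gm_form]
    have : 1 ≤ (2 + 1 * c) ^ 2 := by nlinarith
    nlinarith [mul_self_nonneg w.1, mul_self_nonneg w.2]
  have e : (gm (1 - t)).form p u v - (gm 1).form p u v = t * (c * (-(4 + 2 * c) + t * c)) * (u.2 * v.2) := by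
    rw [gm_form, gm_form]
    ring
  have h2 : |c * (-(4 + 2 * c) + t * c)| ≤ 9 := by
    rw [abs_le]
    constructor <;> nlinarith [mul_nonneg h0 (sq_nonneg c), mul_le_one₀ h1 (sq_nonneg c)
      (by nlinarith : c ^ 2 ≤ 1)]
  rw [e, abs_mul, abs_mul, abs_mul u.2, abs_of_nonneg h0]
  have h3 := key u
  have h4 := key v
  have h5 : |u.2| * |v.2| ≤ Real.sqrt ((gm 1).form p u u) * Real.sqrt ((gm 1).form p v v) :=
    mul_le_mul h3 h4 (abs_nonneg _) (Real.sqrt_nonneg _)
  have h6 : t * |c * (-(4 + 2 * c) + t * c)| ≤ 9 * t := by nlinarith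
  exact mul_le_mul h6 h5 (by positivity) (by positivity)

/-- **Q1 is false.**  The metric `g₀ = gm 1 = dx² + (2 + cos x)² dy²` on the torus `T²` is real
analytic and is induced by the real analytic embedding `f₀` (the torus of revolution) in `ℝ³`, and for
every `ε > 0` and every `k` there is a (real analytic) metric `g` on `T²` with

* `|(g - g₀)(u, v)| ≤ ε |u| |v|` for all tangent vectors at all points, with the lengths with respect
  to `g₀`,
* all derivatives of order at most `k` of the coefficients of `g - g₀` are bounded by `ε`,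
* `(T², g)` has no isometric immersion of class `C³` in `ℝ³`, in particular no smooth isometric
  embedding. -/
theorem result : IsMetric ω (gm 1) ∧ IsIsometricEmbedding ω (gm 1) f₀ ∧
    ∀ ε : ℝ, 0 < ε → ∀ k : ℕ, ∃ g : Tensor, IsMetric ω g ∧
      (∀ p u v, |g.form p u v - (gm 1).form p u v| ≤
        ε * (Real.sqrt ((gm 1).form p u u) * Real.sqrt ((gm 1).form p v v))) ∧
      (∀ j ≤ k, ∀ p, ‖iteratedFDeriv ℝ j (fun q => g.E q - (gm 1).E q) p‖ ≤ ε ∧
        ‖iteratedFDeriv ℝ j (fun q => g.F q - (gm 1).F q) p‖ ≤ ε ∧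
        ‖iteratedFDeriv ℝ j (fun q => g.G q - (gm 1).G q) p‖ ≤ ε) ∧
      ¬ ∃ f, IsIsometricImmersion 3 g f := by
  refine ⟨gm_metric zero_le_one le_rfl, f₀_embedding, fun ε hε k => ?_⟩
  choose C hC hC' using close
  -- a bound for all orders up to `k`
  set S : ℝ := ∑ j ∈ Finset.range (k + 1), C j
  have hS : 0 ≤ S := Finset.sum_nonneg fun j _ => hC j
  have hCS : ∀ j ≤ k, C j ≤ S := fun j hj =>
    Finset.single_le_sum (fun i _ => hC i) (Finset.mem_range.2 (by omega))
  obtain ⟨t, ht0, ht1, ht2⟩ : ∃ t : ℝ, 0 < t ∧ t ≤ 1 ∧ (9 + S) * t ≤ ε := by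
    refine ⟨min 1 (ε / (9 + S)), by positivity, min_le_left _ _, ?_⟩
    have h1 : min 1 (ε / (9 + S)) ≤ ε / (9 + S) := min_le_right _ _
    rw [le_div_iff₀ (by positivity)] at h1
    linarith
  have hz : ∀ (j : ℕ) (p : ℝ × ℝ), ‖iteratedFDeriv ℝ j (fun _ : ℝ × ℝ => (0 : ℝ)) p‖ ≤ ε := by
    intro j p
    rw [iteratedFDeriv_fun_zero]
    simpa using hε.le
  refine ⟨gm (1 - t), gm_metric (by linarith) (by linarith), ?_, ?_,
    no_immersion (by linarith) (by linarith)⟩
  · intro p u v
    refine (close0 ht0.le ht1 p u v).trans ?_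
    apply mul_le_mul_of_nonneg_right _ (by positivity)
    nlinarith
  · intro j hj p
    refine ⟨?_, ?_, ?_⟩
    · simpa [gm] using hz j p
    · simpa [gm] using hz j p
    · refine (hC' j t ht0.le ht1 p).trans ?_
      have := hCS j hj
      nlinarith

end Pool.Agent.Results.MP_665542_gt.TorusOfRevolution
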